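import Pool.Agent.H81.LE.Stm

/-!
# Module S_count (helper82): counting the family
-/

set_option autoImplicit false

namespace Pool.Agent.H82.LE

open Finset Pool.Agent.H81.LE

lemma sum_image_le {α β : Type} [DecidableEq β] (s : Finset α) (f : α → β) (g : β → ℝ)
    (hg : ∀ b, 0 ≤ g b) : ∑ b ∈ s.image f, g b ≤ ∑ a ∈ s, g (f a) := by
  classical
  rw [← Finset.sum_fiberwise_of_maps_to (t := s.image f) (g := f)
    (fun a ha => Finset.mem_image_of_mem f ha) (fun a => g (f a))]
  apply Finset.sum_le_sum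
  intro b hb
  obtain ⟨a, ha, rfl⟩ := Finset.mem_image.1 hb
  calc g (f a) = ∑ i ∈ {a}, g (f i) := by rw [Finset.sum_singleton]
    _ ≤ ∑ i ∈ s.filter (fun i => f i = f a), g (f i) := by
      apply Finset.sum_le_sum_of_subset_of_nonneg
      · intro i hi
        rw [Finset.mem_singleton] at hi
        subst hi
        exact Finset.mem_filter.2 ⟨ha, rfl⟩
      · intro i _ _
        exact hg _

lemma sq_exp {t : ℝ} (ht : 500000 ≤ t) : 4000000000 * t ^ 2 * Real.exp (-t) ≤ 1 := by
  have h1 : t ^ 4 / (Nat.factorial 4 : ℝ) ≤ Real.exp t := Real.pow_div_factorial_le_exp t (by linarith) 4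
  have h2 : (Nat.factorial 4 : ℝ) = 24 := by norm_num [Nat.factorial]
  rw [h2] at h1
  rw [Real.exp_neg, ← div_eq_mul_inv, div_le_one (Real.exp_pos t)]
  refine le_trans ?_ h1
  have h3 : (500000 : ℝ) ^ 2 ≤ t ^ 2 := pow_le_pow_left₀ (by norm_num) ht 2
  have h4 : (0 : ℝ) ≤ t ^ 2 := by positivity
  nlinarith

theorem t_count : S_count := by
  classical
  intro V _ S L D hD hL hS
  set x : ℝ := Real.exp (-(D : ℝ) / 200) with hx
  have hx0 : 0 < x := Real.exp_pos _
  have hDr : (100000000 : ℝ) ≤ D := by exact_mod_cast hD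
  have hD0 : (0 : ℝ) ≤ D := by linarith
  -- the palette
  have hpal : ((S.biUnion L).card : ℝ) ≤ (D : ℝ) ^ 2 := by
    have h1 : (S.biUnion L).card ≤ S.card * D :=
      Finset.card_biUnion_le_card_mul S L D (fun v hv => (hL v hv).le)
    have h2 : (S.biUnion L).card ≤ D * D := h1.trans (Nat.mul_le_mul_right _ hS)
    have h3 : ((S.biUnion L).card : ℝ) ≤ (D : ℝ) * D := by exact_mod_cast h2
    linarith [h3, sq (D : ℝ)]
  have hSr : (S.card : ℝ) ≤ (D : ℝ) ^ 2 := by
    have h1 : (S.card : ℝ) ≤ D := by exact_mod_cast hS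
    nlinarith
  have hsmall : (D : ℝ) ^ 2 * x ≤ 1 / 8 := by
    have h := sq_exp (t := (D : ℝ) / 200) (by linarith)
    rw [← neg_div] at h
    have h2 : 4000000000 * ((D : ℝ) / 200) ^ 2 * Real.exp (-(D : ℝ) / 200)
        = 100000 * ((D : ℝ) ^ 2 * x) := by
      rw [hx]; ring
    rw [h2] at h
    linarith
  unfold family
  have hun : ∀ s t : Finset (Finset (V × ℕ)), ∑ F ∈ s ∪ t, Real.exp (-(F.card : ℝ)) ≤
      ∑ F ∈ s, Real.exp (-(F.card : ℝ)) + ∑ F ∈ t, Real.exp (-(F.card : ℝ)) := by
    intro s t
    rw [← Finset.sum_union_inter]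
    have : 0 ≤ ∑ F ∈ s ∩ t, Real.exp (-(F.card : ℝ)) :=
      Finset.sum_nonneg fun _ _ => (Real.exp_pos _).le
    linarith
  refine (hun _ _).trans ?_
  -- the first part
  have hfirst : ∑ F ∈ ((S.powerset ×ˢ (S.biUnion L).powerset).filter (fun q =>
      D * (1 + (S \ q.1).card + q.2.card) ≤ 200 * (Fam S L D q.1 q.2).card)).image
      (fun q => Fam S L D q.1 q.2), Real.exp (-(F.card : ℝ)) ≤ 2 * x := by
    refine (sum_image_le _ _ _ (fun _ => (Real.exp_pos _).le)).trans ?_
    have h1 : ∀ q ∈ (S.powerset ×ˢ (S.biUnion L).powerset).filter (fun q =>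
        D * (1 + (S \ q.1).card + q.2.card) ≤ 200 * (Fam S L D q.1 q.2).card),
        Real.exp (-((Fam S L D q.1 q.2).card : ℝ)) ≤
          x * (1 ^ q.1.card * x ^ (S.card - q.1.card)) *
            (x ^ q.2.card * 1 ^ ((S.biUnion L).card - q.2.card)) := by
      intro q hq
      rw [Finset.mem_filter, Finset.mem_product, Finset.mem_powerset] at hq
      have h2 := hq.2
      rw [Finset.card_sdiff_of_subset hq.1.1] at h2
      have h3 : (D : ℝ) * (1 + ((S.card - q.1.card : ℕ) : ℝ) + (q.2.card : ℝ)) ≤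
          200 * ((Fam S L D q.1 q.2).card : ℝ) := by exact_mod_cast h2
      have h4 : x * (1 ^ q.1.card * x ^ (S.card - q.1.card)) *
            (x ^ q.2.card * 1 ^ ((S.biUnion L).card - q.2.card)) =
          Real.exp (-(D : ℝ) / 200 * (1 + ((S.card - q.1.card : ℕ) : ℝ) + (q.2.card : ℝ))) := by
        rw [one_pow, one_pow, one_mul, mul_one, hx, ← Real.exp_nat_mul, ← Real.exp_nat_mul,
          ← Real.exp_add, ← Real.exp_add]
        congr 1
        ring
      rw [h4]
      apply Real.exp_le_exp.2
      linarith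
    refine (Finset.sum_le_sum h1).trans ?_
    have h5 : ∑ q ∈ (S.powerset ×ˢ (S.biUnion L).powerset).filter (fun q =>
        D * (1 + (S \ q.1).card + q.2.card) ≤ 200 * (Fam S L D q.1 q.2).card),
        x * (1 ^ q.1.card * x ^ (S.card - q.1.card)) *
            (x ^ q.2.card * 1 ^ ((S.biUnion L).card - q.2.card)) ≤
        ∑ q ∈ S.powerset ×ˢ (S.biUnion L).powerset,
        x * (1 ^ q.1.card * x ^ (S.card - q.1.card)) *
            (x ^ q.2.card * 1 ^ ((S.biUnion L).card - q.2.card)) := by
      apply Finset.sum_le_sum_of_subset_of_nonneg (Finset.filter_subset _ _)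
      intro q _ _
      positivity
    refine h5.trans ?_
    rw [Finset.sum_product]
    have h6 : ∑ A ∈ S.powerset, ∑ K ∈ (S.biUnion L).powerset,
        x * (1 ^ A.card * x ^ (S.card - A.card)) *
            (x ^ K.card * 1 ^ ((S.biUnion L).card - K.card)) =
        x * ((1 + x) ^ S.card * (x + 1) ^ (S.biUnion L).card) := by
      rw [← Finset.sum_pow_mul_eq_add_pow, ← Finset.sum_pow_mul_eq_add_pow, Finset.sum_mul_sum,
        Finset.mul_sum]
      apply Finset.sum_congr rfl
      intro A _
      rw [Finset.mul_sum]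
      apply Finset.sum_congr rfl
      intro K _
      ring
    rw [h6, add_comm x 1, ← pow_add]
    have h7 : (1 + x) ^ (S.card + (S.biUnion L).card) ≤ 2 := by
      have h8 : (1 + x) ^ (S.card + (S.biUnion L).card) ≤
          Real.exp (((S.card + (S.biUnion L).card : ℕ) : ℝ) * x) := by
        rw [Real.exp_nat_mul]
        apply pow_le_pow_left₀ (by positivity)
        rw [add_comm]
        exact Real.add_one_le_exp x
      refine h8.trans ?_
      have h9 : ((S.card + (S.biUnion L).card : ℕ) : ℝ) * x ≤ 1 / 4 := by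
        push_cast
        nlinarith
      refine (Real.exp_le_exp.2 h9).trans ?_
      have h10 := Real.exp_bound' (x := 1 / 4) (by norm_num) (by norm_num) (n := 3) (by norm_num)
      refine h10.trans ?_
      norm_num [Finset.sum_range_succ, Nat.factorial]
    calc x * (1 + x) ^ (S.card + (S.biUnion L).card) ≤ x * 2 := by
          apply mul_le_mul_of_nonneg_left h7 hx0.le
      _ = 2 * x := by ring
  -- the second part
  have hsecond : ∑ F ∈ (popular S L D).image (Col S L), Real.exp (-(F.card : ℝ)) ≤ x := by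
    refine (sum_image_le _ _ _ (fun _ => (Real.exp_pos _).le)).trans ?_
    have h1 : ∀ c ∈ popular S L D, Real.exp (-((Col S L c).card : ℝ)) ≤ x * x := by
      intro c hc
      unfold popular at hc
      rw [Finset.mem_filter] at hc
      have h2 : (Col S L c).card = (S.filter (fun v => c ∈ L v)).card := by
        unfold Col
        apply Finset.card_image_of_injective
        intro v w h
        exact (Prod.mk.inj h).1
      rw [h2, hx, ← Real.exp_add]
      apply Real.exp_le_exp.2
      have h3 : (99 : ℝ) * D ≤ 100 * ((S.filter (fun v => c ∈ L v)).card : ℝ) := by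
        exact_mod_cast hc.2
      linarith
    refine (Finset.sum_le_sum h1).trans ?_
    rw [Finset.sum_const, nsmul_eq_mul]
    have h4 : ((popular S L D).card : ℝ) ≤ (D : ℝ) ^ 2 := by
      refine le_trans ?_ hpal
      exact_mod_cast Finset.card_le_card (Finset.filter_subset _ _)
    calc ((popular S L D).card : ℝ) * (x * x) ≤ (D : ℝ) ^ 2 * (x * x) := by
          apply mul_le_mul_of_nonneg_right h4 (by positivity)
      _ = ((D : ℝ) ^ 2 * x) * x := by ring
      _ ≤ 1 * x := by
          apply mul_le_mul_of_nonneg_right (by linarith) hx0.le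
      _ = x := one_mul x
  have hfin : 3 * x ≤ Real.exp (-(D : ℝ) / 400) := by
    have h1 : x = Real.exp (-(D : ℝ) / 400) * Real.exp (-(D : ℝ) / 400) := by
      rw [hx, ← Real.exp_add]
      congr 1
      ring
    have h2 : 3 * Real.exp (-(D : ℝ) / 400) ≤ 1 := by
      rw [neg_div, Real.exp_neg, ← div_eq_mul_inv, div_le_one (Real.exp_pos _)]
      have := Real.add_one_le_exp ((D : ℝ) / 400)
      linarith
    rw [h1]
    have h3 := Real.exp_pos (-(D : ℝ) / 400)
    nlinarith
  linarith [hfirst, hsecond, hfin]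

end Pool.Agent.H82.LE
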