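import Pool.Agent.H81.LE.Stm

/-!
# Module S_uni (helper82): uniform picks
-/

set_option autoImplicit false

namespace Pool.Agent.H82.LE

open Finset Pool.Agent.H81.LE

/-- conditions on separate coordinates -/
lemma card_sub_pi {ι β : Type} [Fintype ι] [DecidableEq ι] (Om Om' : ι → Finset β)
    (I : Finset ι) (F : Finset (ι → β)) (hF : ∀ f ∈ F, f ∈ Fintype.piFinset Om)
    (hF' : ∀ f ∈ F, ∀ i ∈ I, f i ∈ Om' i) (c : ℝ)
    (h : ∀ i ∈ I, ((Om' i).card : ℝ) ≤ c * ((Om i).card : ℝ)) :
    (F.card : ℝ) ≤ c ^ I.card * ((Fintype.piFinset Om).card : ℝ) := by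
  have h1 : F ⊆ Fintype.piFinset (fun i => if i ∈ I then Om' i else Om i) := by
    intro f hf
    have h0 := Fintype.mem_piFinset.1 (hF f hf)
    rw [Fintype.mem_piFinset]
    intro i
    by_cases hi : i ∈ I
    · rw [if_pos hi]
      exact hF' f hf i hi
    · rw [if_neg hi]
      exact h0 i
  have h2 : (F.card : ℝ) ≤
      ((Fintype.piFinset (fun i => if i ∈ I then Om' i else Om i)).card : ℝ) :=
    Nat.cast_le.2 (Finset.card_le_card h1)
  refine h2.trans ?_
  rw [Fintype.card_piFinset, Fintype.card_piFinset]
  push_cast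
  have h3 : c ^ I.card = ∏ i : ι, (if i ∈ I then c else 1) := by
    rw [Finset.prod_ite_mem, Finset.univ_inter, Finset.prod_const]
  rw [h3, ← Finset.prod_mul_distrib]
  apply Finset.prod_le_prod
  · intro i _
    positivity
  · intro i _
    by_cases hi : i ∈ I
    · rw [if_pos hi, if_pos hi]
      exact h i hi
    · rw [if_neg hi, if_neg hi, one_mul]

lemma card_hit {κ : Type} [DecidableEq κ] (B : Finset κ) (t : κ) (j : Fin 8) :
    ((Fintype.piFinset (fun _ : Fin 8 => B)).filter (fun g => g j = t)).card ≤ B.card ^ 7 := by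
  have h1 : (Fintype.piFinset (fun _ : Fin 8 => B)).filter (fun g => g j = t) ⊆
      Fintype.piFinset (fun l : Fin 8 => if l = j then {t} else B) := by
    intro g hg
    rw [Finset.mem_filter, Fintype.mem_piFinset] at hg
    rw [Fintype.mem_piFinset]
    intro l
    by_cases hl : l = j
    · subst hl
      rw [if_pos rfl, Finset.mem_singleton]
      exact hg.2
    · rw [if_neg hl]
      exact hg.1 l
  refine (Finset.card_le_card h1).trans ?_
  rw [Fintype.card_piFinset, ← Finset.mul_prod_erase Finset.univ _ (Finset.mem_univ j), if_pos rfl,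
    Finset.card_singleton, one_mul]
  have h2 : ∏ l ∈ Finset.univ.erase j, (if l = j then ({t} : Finset κ) else B).card =
      ∏ l ∈ Finset.univ.erase j, B.card := by
    apply Finset.prod_congr rfl
    intro l hl
    rw [if_neg (Finset.ne_of_mem_erase hl)]
  rw [h2, Finset.prod_const, Finset.card_erase_of_mem (Finset.mem_univ j), Finset.card_univ,
    Fintype.card_fin]

theorem t_uni : S_uni := by
  classical
  intro ι κ _ _ _ B b hb hB
  have hBpos : ∀ i, 0 < ((B i).card : ℝ) := fun i => lt_of_lt_of_le hb (hB i)
  have hcard : ∀ i, (Fintype.piFinset (fun _ : Fin 8 => B i)).card = (B i).card ^ 8 := by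
    intro i
    rw [Fintype.card_piFinset, Finset.prod_const, Finset.card_univ, Fintype.card_fin]
  refine ⟨?_, ?_, ?_⟩
  · rw [Fintype.card_piFinset]
    apply Finset.prod_pos
    intro i _
    rw [hcard]
    have := hBpos i
    exact Nat.pow_pos (by exact_mod_cast this)
  · intro I t
    refine card_sub_pi (fun i => Fintype.piFinset (fun _ : Fin 8 => B i))
      (fun i => (Fintype.piFinset (fun _ : Fin 8 => B i)).filter (fun g => ∃ j, g j = t i)) I _ ?_ ?_ (8 / b) ?_
    · intro f hf
      exact (Finset.mem_filter.1 hf).1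
    · intro f hf i hi
      rw [Finset.mem_filter] at hf ⊢
      exact ⟨Fintype.mem_piFinset.1 hf.1 i, hf.2 i hi⟩
    · intro i _
      · have h1 : (Fintype.piFinset (fun _ : Fin 8 => B i)).filter (fun g => ∃ j, g j = t i) ⊆
            (Finset.univ : Finset (Fin 8)).biUnion (fun j =>
              (Fintype.piFinset (fun _ : Fin 8 => B i)).filter (fun g => g j = t i)) := by
          intro g hg
          rw [Finset.mem_filter] at hg
          obtain ⟨hg1, j, hj⟩ := hg
          exact Finset.mem_biUnion.2 ⟨j, Finset.mem_univ j, Finset.mem_filter.2 ⟨hg1, hj⟩⟩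
        have h2 : ((Fintype.piFinset (fun _ : Fin 8 => B i)).filter
            (fun g => ∃ j, g j = t i)).card ≤ 8 * (B i).card ^ 7 := by
          refine (Finset.card_le_card h1).trans ?_
          refine (Finset.card_biUnion_le_card_mul _ _ ((B i).card ^ 7)
            (fun j _ => card_hit (B i) (t i) j)).trans ?_
          rw [Finset.card_univ, Fintype.card_fin]
        have h3 : ((((Fintype.piFinset (fun _ : Fin 8 => B i)).filter
            (fun g => ∃ j, g j = t i)).card : ℕ) : ℝ) ≤ 8 * ((B i).card : ℝ) ^ 7 := by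
          exact_mod_cast h2
        refine h3.trans ?_
        rw [hcard]
        push_cast
        have h4 : 8 * ((B i).card : ℝ) ^ 7 = 8 / ((B i).card : ℝ) * ((B i).card : ℝ) ^ 8 := by
          have := (hBpos i).ne'
          field_simp
        rw [h4]
        apply mul_le_mul_of_nonneg_right _ (by positivity)
        exact div_le_div_of_nonneg_left (by norm_num) hb (hB i)
  · intro I U
    rw [pow_mul]
    refine card_sub_pi (fun i => Fintype.piFinset (fun _ : Fin 8 => B i))
      (fun i => (Fintype.piFinset (fun _ : Fin 8 => B i)).filter (fun g => ∀ j, g j ∈ U)) I _ ?_ ?_ (((U.card : ℝ) / b) ^ 8) ?_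
    · intro f hf
      exact (Finset.mem_filter.1 hf).1
    · intro f hf i hi
      rw [Finset.mem_filter] at hf ⊢
      exact ⟨Fintype.mem_piFinset.1 hf.1 i, hf.2 i hi⟩
    · intro i _
      · have h1 : (Fintype.piFinset (fun _ : Fin 8 => B i)).filter (fun g => ∀ j, g j ∈ U) ⊆
            Fintype.piFinset (fun _ : Fin 8 => U) := by
          intro g hg
          rw [Finset.mem_filter] at hg
          exact Fintype.mem_piFinset.2 hg.2
        have h2 : ((Fintype.piFinset (fun _ : Fin 8 => B i)).filter
            (fun g => ∀ j, g j ∈ U)).card ≤ U.card ^ 8 := by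
          refine (Finset.card_le_card h1).trans ?_
          rw [Fintype.card_piFinset, Finset.prod_const, Finset.card_univ, Fintype.card_fin]
        have h3 : ((((Fintype.piFinset (fun _ : Fin 8 => B i)).filter
            (fun g => ∀ j, g j ∈ U)).card : ℕ) : ℝ) ≤ (U.card : ℝ) ^ 8 := by
          exact_mod_cast h2
        refine h3.trans ?_
        rw [hcard]
        push_cast
        rw [← mul_pow]
        apply pow_le_pow_left₀ (by positivity)
        rw [div_mul_eq_mul_div, le_div_iff₀ hb]
        exact mul_le_mul_of_nonneg_left (hB i) (by positivity)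

end Pool.Agent.H82.LE
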